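import Pool.Agent.helper23.TH.All

/-!
MP_26dbae_co: `f_2(n, T^p) = O(n^{2 v / e})` for every balanced rooted graph `T` with `v` inner vertices and
`e ≤ 2 v` edges and all large `p`.
-/

set_option autoImplicit false

namespace Pool.Agent.Results.MP_26dbae_co.BalancedPowersUpper

open Pool.Agent.helper23.TH

/-- For every balanced rooted graph `T` with `v ≥ 1` inner vertices and `1 ≤ e ≤ 2 v` edges there is `p₀` such
that for all `p ≥ p₀` there is `C` such that for all large `n` some proper colouring of the edges of `K_n` with at most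
`C n^{2 v / e}` colours has no two vertex disjoint colour isomorphic copies of `T^p`. -/
theorem result : ∀ T : Rooted, T.Balanced → 1 ≤ T.v → 1 ≤ T.e → T.e ≤ 2 * T.v →
    ∃ p₀ : ℕ, ∀ p : ℕ, p₀ ≤ p → ∃ C : ℝ, 0 < C ∧ ∃ N : ℕ, ∀ n : ℕ, N ≤ n →
      ∃ m : ℕ, (m : ℝ) ≤ C * (n : ℝ) ^ (2 * (T.v : ℝ) / T.e) ∧
        ∃ χ : Fin n → Fin n → Fin m, PC χ ∧ ¬ Two (T.pw p) χ :=
  all_Main.2

end Pool.Agent.Results.MP_26dbae_co.BalancedPowersUpper
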