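import Pool.Agent.helper23.F2.Fin
import Pool.Agent.helper37.F2.FNP

/-!
MP_26dbae_co: every rational `1 < r < 2` is the exponent of `f_2(n, T^p)` for all large powers `T^p` of one balanced
rooted graph `T`.
-/

set_option autoImplicit false

namespace Pool.Agent.Results.MP_26dbae_co.RationalExponents

open Pool.Agent.helper23.TH Pool.Agent.F2 Pool.Agent.F2T

/-- For every rational `1 < r < 2` there is a balanced rooted graph `T` with `v` inner vertices and `e` edges,
`2 v / e = r`, such that all powers of `T` are bipartite and `f_2(n, T^p) = Θ(n^r)` for all large `p`. -/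
theorem result : ∀ r : ℚ, 1 < r → r < 2 → ∃ T : Rooted, T.Balanced ∧ 1 ≤ T.v ∧ 1 ≤ T.e ∧
    2 * (T.v : ℚ) = r * T.e ∧ (∀ p, (T.pw p).Colorable 2) ∧
    ∃ p₀ : ℕ, ∀ p : ℕ, p₀ ≤ p → Law (T.pw p) (r : ℝ) :=
  FNP (TS TB TE all_THM1 all_SUB) (T0 all_STAR) TA TV (PL EC PB PG) all_UB MONO

end Pool.Agent.Results.MP_26dbae_co.RationalExponents
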